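import Pool.Agent.W872.SV.Stm

/-! Part BCNT of project SV: size of case B. -/

set_option autoImplicit false

namespace W369.SV.BCNT

open Finset Filter W872.SV

/-- the data -/
abbrev Dt (n u t : ℕ) : Type :=
  Fin u → Fin n × Fin n × Bool × {s : Finset (Fin n) // s.card ≤ t}

open Classical in
/-- the family of a datum -/
noncomputable def Fam {n u t : ℕ} (d : Dt n u t) : Finset (SimpleGraph (Fin n)) :=
  if Function.Injective (fun s => (d s).1) ∧ ∀ s r, (d s).2.1 ≠ (d r).1 then
    univ.filter fun G : SimpleGraph (Fin n) =>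
      ∀ s x, ((G.Adj (d s).1 x ↔ G.Adj (d s).2.1 x) ↔
        (x ∈ (d s).2.2.2.1 ↔ (d s).2.2.1 = true))
  else ∅

theorem fam_card (hCB : PartCB) {n u t : ℕ} (d : Dt n u t) :
    (Fam d).card * 2 ^ (u * (n - u)) ≤ 2 ^ (n.choose 2) := by
  unfold Fam
  split_ifs with h
  · exact hCB n u (fun s => (d s).1) (fun s => (d s).2.1) (fun s => (d s).2.2.1)
      (fun s => (d s).2.2.2.1) h.1 h.2
  · simp

open Classical in
theorem dt_card (n u t : ℕ) : Fintype.card (Dt n u t) = (2 * n ^ 2 * NS n t) ^ u := by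
  have h1 : Fintype.card {s : Finset (Fin n) // s.card ≤ t} = NS n t := by
    unfold NS
    rw [Fintype.card_subtype]
  rw [Fintype.card_fun, Fintype.card_prod, Fintype.card_prod, Fintype.card_prod,
    Fintype.card_fin, Fintype.card_fin, Fintype.card_bool, h1]
  congr 1
  ring

open Classical in
theorem main : W872.SV.PartCB → W872.SV.PartIND → W872.SV.PartBCNT := by
  intro hCB hIND n M u hn
  have hcov : setB n M ⊆ (univ : Finset (Dt n u (M + 6))).biUnion fun d => Fam d := by
    intro G hG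
    obtain ⟨i0, i1, hG'⟩ := (mem_filter.1 hG).2
    have hch : ∀ i : Fin n, ∃ j : Fin n, (i ≠ i0 → i ≠ i1 → j ≠ i ∧ Near G (M + 6) i j) := by
      intro i
      by_cases h : i ≠ i0 ∧ i ≠ i1
      · obtain ⟨j, hj⟩ := hG' i h.1 h.2
        exact ⟨j, fun _ _ => hj⟩
      · exact ⟨i, fun h1 h2 => absurd ⟨h1, h2⟩ h⟩
    choose f hf using hch
    obtain ⟨U, hUK, hUc, hU⟩ := hIND n ((univ.erase i0).erase i1) f (by
      intro i hi
      have h1 := mem_erase.1 hi
      exact (hf i (mem_erase.1 h1.2).1 h1.1).1)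
    have hK : n - 2 ≤ ((univ.erase i0).erase i1 : Finset (Fin n)).card := by
      have h1 := pred_card_le_card_erase (s := (univ.erase i0 : Finset (Fin n))) (a := i1)
      have h2 := pred_card_le_card_erase (s := (univ : Finset (Fin n))) (a := i0)
      rw [card_univ, Fintype.card_fin] at h2
      omega
    obtain ⟨V, hVU, hVc⟩ := exists_subset_card_eq (s := U) (n := u) (by omega)
    have hV : ∀ s : Fin u, V.orderEmbOfFin hVc s ∈ V := fun s => orderEmbOfFin_mem V hVc s
    have hnear : ∀ s : Fin u, Near G (M + 6) (V.orderEmbOfFin hVc s)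
        (f (V.orderEmbOfFin hVc s)) := by
      intro s
      have h1 := mem_erase.1 (hUK (hVU (hV s)))
      exact (hf _ (mem_erase.1 h1.2).1 h1.1).2
    choose ε hε using hnear
    refine mem_biUnion.2 ⟨fun s => (V.orderEmbOfFin hVc s, f (V.orderEmbOfFin hVc s), !ε s,
      ⟨_, hε s⟩), mem_univ _, ?_⟩
    unfold Fam
    rw [if_pos]
    · refine mem_filter.2 ⟨mem_univ _, fun s x => ?_⟩
      simp only [mem_filter, mem_univ, true_and]
      cases ε s <;> simp
    · refine ⟨(V.orderEmbOfFin hVc).injective, fun s r h => ?_⟩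
      have h1 := hU _ (hVU (hV s))
      simp only at h
      rw [h] at h1
      exact h1 (hVU (hV r))
  calc (setB n M).card * 2 ^ (u * (n - u))
      ≤ (∑ d : Dt n u (M + 6), (Fam d).card) * 2 ^ (u * (n - u)) :=
        Nat.mul_le_mul_right _ ((card_le_card hcov).trans card_biUnion_le)
    _ = ∑ d : Dt n u (M + 6), (Fam d).card * 2 ^ (u * (n - u)) := by rw [sum_mul]
    _ ≤ ∑ _d : Dt n u (M + 6), 2 ^ (n.choose 2) := sum_le_sum fun d _ => fam_card hCB d
    _ = (2 * n ^ 2 * NS n (M + 6)) ^ u * 2 ^ (n.choose 2) := by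
        rw [sum_const, card_univ, dt_card, smul_eq_mul]
    _ ≤ (2 * n ^ 2 * NS n (M + 6)) ^ u * (n ^ 2 * 2 ^ (n.choose 2)) := by
        refine Nat.mul_le_mul_left _ ?_
        have : 1 ≤ n ^ 2 := Nat.one_le_pow _ _ (by omega)
        nlinarith [Nat.zero_le (2 ^ (n.choose 2))]

end W369.SV.BCNT
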